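import Pool.Agent.helper55.NK.Spec

set_option autoImplicit false

namespace Pool.Agent.helper64.NK

open Pool.Agent.NK Finset

theorem UNI_up (i j x b : ℕ) (h : (x + 1) * j ≤ i * (b + 1)) :
    x.choose i * (b + 1).choose j ≤ (x + 1).choose i * b.choose j := by
  rcases Nat.lt_or_ge x i with hi | hi
  · rw [Nat.choose_eq_zero_of_lt hi, zero_mul]
    exact Nat.zero_le _
  · have hj : j ≤ b + 1 := by
      by_contra hc
      have h1 : b + 2 ≤ j := by omega
      have h2 : (x + 1) * (b + 2) ≤ (x + 1) * j := Nat.mul_le_mul_left _ h1
      have h3 : i * (b + 1) ≤ x * (b + 1) := Nat.mul_le_mul_right _ hi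
      nlinarith
    obtain ⟨u, hu⟩ := Nat.exists_eq_add_of_le hi
    obtain ⟨v, hv⟩ := Nat.exists_eq_add_of_le hj
    have h1 : x.choose i * (x + 1) = (x + 1).choose i * (u + 1) := by
      have := Nat.choose_mul_succ_eq x i
      have e : x + 1 - i = u + 1 := by omega
      rw [e] at this
      exact this
    have h2 : b.choose j * (b + 1) = (b + 1).choose j * v := by
      have := Nat.choose_mul_succ_eq b j
      have e : b + 1 - j = v := by omega
      rw [e] at this
      exact this
    have h3 : (u + 1) * (b + 1) ≤ (x + 1) * v := by
      rw [hv] at h ⊢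
      rw [hu] at h ⊢
      nlinarith
    have h4 : x.choose i * (b + 1).choose j * ((u + 1) * (b + 1)) ≤
        (x + 1).choose i * b.choose j * ((u + 1) * (b + 1)) := by
      calc x.choose i * (b + 1).choose j * ((u + 1) * (b + 1))
          ≤ x.choose i * (b + 1).choose j * ((x + 1) * v) := Nat.mul_le_mul_left _ h3
        _ = (x.choose i * (x + 1)) * ((b + 1).choose j * v) := by ring
        _ = ((x + 1).choose i * (u + 1)) * (b.choose j * (b + 1)) := by rw [h1, h2]
        _ = (x + 1).choose i * b.choose j * ((u + 1) * (b + 1)) := by ring
    exact Nat.le_of_mul_le_mul_right h4 (by positivity)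

theorem UNI_dn (i j x b : ℕ) (h : i * (b + 1) ≤ (x + 1) * j) :
    (x + 1).choose i * b.choose j ≤ x.choose i * (b + 1).choose j := by
  have h1 := UNI_up j i b x (by rw [mul_comm (b + 1) i, mul_comm j (x + 1)]; exact h)
  rw [mul_comm ((x + 1).choose i), mul_comm (x.choose i)]
  exact h1

theorem UNI : UNI_stmt := by
  intro a b i j hi hj hij
  have hn0 : i * (a + b + 1) / (i + j) ≤ a + b := by
    have : i * (a + b + 1) / (i + j) < a + b + 1 := by
      rw [Nat.div_lt_iff_lt_mul (by omega)]
      nlinarith
    omega
  have hlow : ∀ x, x + 1 ≤ i * (a + b + 1) / (i + j) → (x + 1) * (i + j) ≤ i * (a + b + 1) := by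
    intro x hx
    exact (Nat.le_div_iff_mul_le (by omega)).1 hx
  have hhigh : ∀ x, i * (a + b + 1) / (i + j) < x + 1 → i * (a + b + 1) < (x + 1) * (i + j) := by
    intro x hx
    exact (Nat.div_lt_iff_lt_mul (by omega)).1 hx
  generalize i * (a + b + 1) / (i + j) = c at *
  rcases Nat.le_total a c with h | h
  · have key : ∀ d, a + d ≤ c → a.choose i * b.choose j ≤ (a + d).choose i * (a + b - (a + d)).choose j := by
      intro d
      induction d with
      | zero =>
        intro _
        have e : a + b - (a + 0) = b := by omega
        rw [e, Nat.add_zero]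
      | succ d ih =>
        intro hd
        refine (ih (by omega)).trans ?_
        have e : a + b - (a + d) = (a + b - (a + (d + 1))) + 1 := by omega
        have h1 := hlow (a + d) (by omega)
        have h2 : (a + d + 1) * j ≤ i * ((a + b - (a + (d + 1))) + 1) := by
          obtain ⟨y, hy⟩ : ∃ y, y = a + b - (a + (d + 1)) := ⟨_, rfl⟩
          have hy2 : a + b + 1 = (a + d + 1) + (y + 1) := by omega
          rw [← hy]
          rw [hy2] at h1
          nlinarith
        have h3 := UNI_up i j (a + d) (a + b - (a + (d + 1))) h2
        rw [e]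
        exact h3
    have := key (c - a) (by omega)
    have e : a + (c - a) = c := by omega
    rw [e] at this
    exact this
  · have key : ∀ d, c + d ≤ a → (c + d).choose i * (a + b - (c + d)).choose j ≤
        c.choose i * (a + b - c).choose j := by
      intro d
      induction d with
      | zero =>
        intro _
        exact le_rfl
      | succ d ih =>
        intro hd
        refine le_trans ?_ (ih (by omega))
        have e : a + b - (c + d) = (a + b - (c + (d + 1))) + 1 := by omega
        have h1 := hhigh (c + d) (by omega)
        have h2 : i * ((a + b - (c + (d + 1))) + 1) ≤ (c + d + 1) * j := by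
          obtain ⟨y, hy⟩ : ∃ y, y = a + b - (c + (d + 1)) := ⟨_, rfl⟩
          have hy2 : a + b + 1 = (c + d + 1) + (y + 1) := by omega
          rw [← hy]
          rw [hy2] at h1
          nlinarith
        have h3 := UNI_dn i j (c + d) (a + b - (c + (d + 1))) h2
        rw [e]
        exact h3
    have := key (a - c) (by omega)
    have e : c + (a - c) = a := by omega
    have e2 : a + b - a = b := by omega
    rw [e, e2] at this
    exact this

end Pool.Agent.helper64.NK
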